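import Pool.Agent.W809.FKM.Stms
import Pool.Agent.W809.FKM.Basic2

/-!
# FK-LOC: rapid decay of `g(H)`
-/

set_option autoImplicit false

namespace Pool.Agent.W261.FKM

open Complex
open Pool.Agent.W809.FKM

theorem norm_exp_app {m : ℕ} {H : Op m} (hH : IsSelfAdjoint H) (t : ℝ) (ψ : HS m) :
    ‖NormedSpace.exp ((I * t : ℂ) • H) ψ‖ = ‖ψ‖ := by
  let +nondep : NormedAlgebra ℚ (Op m) := .restrictScalars ℚ ℂ (Op m)
  have h : (I * t : ℂ) • H ∈ skewAdjoint (Op m) := by
    rw [skewAdjoint.mem_iff, star_smul, hH.star_eq, ← neg_smul]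
    congr 1
    simp
  have h1 := (Unitary.mem_iff.1 (NormedSpace.exp_mem_unitary_of_mem_skewAdjoint h)).1
  set V : Op m := NormedSpace.exp ((I * t : ℂ) • H)
  have h2 : inner ℂ (V ψ) (V ψ) = inner ℂ ψ ψ := by
    rw [← ContinuousLinearMap.adjoint_inner_right, ← ContinuousLinearMap.star_eq_adjoint]
    have : (star V) (V ψ) = ψ := by
      change (star V * V) ψ = ψ
      rw [h1]
      rfl
    rw [this]
  have h3 : ‖V ψ‖ ^ 2 = ‖ψ‖ ^ 2 := by
    have e1 := inner_self_eq_norm_sq_to_K (𝕜 := ℂ) (V ψ)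
    have e2 := inner_self_eq_norm_sq_to_K (𝕜 := ℂ) ψ
    rw [h2, e2] at e1
    exact_mod_cast e1.symm
  exact (pow_left_inj₀ (norm_nonneg _) (norm_nonneg _) two_ne_zero).1 h3

theorem loc (h1 : S_ULOC) (h2 : S_FOUR) (h3 : S_ARI) (h4 : S_FCFC) : S_LOC := by
  intro m H hH hL g hg N
  obtain ⟨κ, A, hκ, hA, hU⟩ := h1 m H hL
  set r : ℝ := max ‖H‖ 1 with hr
  have hr0 : 0 < r := lt_of_lt_of_le one_pos (le_max_right _ _)
  obtain ⟨c, hc, hcs⟩ := h2 g r hg hr0
  obtain ⟨hsum, hari⟩ := h3 c hc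
  have hsg := h4 (HS m) H g r c hH hg.continuous hr0 (le_max_left _ _) hsum hcs
  set ω : ℝ := Real.pi / (2 * r) with hω
  have hω0 : 0 < ω := by positivity
  obtain ⟨C, hC⟩ := hari (A * ω) κ (by positivity) hκ N
  refine ⟨C, fun x y v => ?_⟩
  set R : ℝ := dst x y with hR
  have hR0 : 0 ≤ R := dst_nonneg x y
  -- weight
  set ρ : ℤ × ℤ → ℝ := fun z => κ * min (dst z y) R with hρ
  have hρb : ∀ z, |ρ z| ≤ κ * R := fun z => by
    simp only [hρ]
    rw [abs_of_nonneg (mul_nonneg hκ.le (le_min (dst_nonneg _ _) hR0))]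
    exact mul_le_mul_of_nonneg_left (min_le_right _ _) hκ.le
  have hρl : ∀ z z', |ρ z - ρ z'| ≤ κ * dst z z' := fun z z' => by
    simp only [hρ]
    rw [← mul_sub, abs_mul, abs_of_pos hκ]
    refine mul_le_mul_of_nonneg_left ?_ hκ.le
    refine (abs_min_sub_min_le_max _ _ _ _).trans ?_
    rw [sub_self, abs_zero]
    refine max_le ?_ (dst_nonneg _ _)
    rw [abs_le]
    have a1 := dst_triangle z z' y
    have a2 := dst_triangle z' z y
    rw [dst_comm z' z] at a2
    constructor <;> linarith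
  have hρx : ρ x = κ * R := by simp only [hρ]; rw [← hR, min_self]
  have hρy : ρ y = 0 := by simp only [hρ]; rw [dst_self, min_eq_left hR0, mul_zero]
  have hb1 : ∀ x, ‖((Real.exp (ρ x) : ℝ) : ℂ)‖ ≤ Real.exp (κ * R) := fun x => by
    rw [Complex.norm_real, Real.norm_of_nonneg (Real.exp_pos _).le]
    exact Real.exp_le_exp.2 ((le_abs_self _).trans (hρb x))
  have hb2 : ∀ x, ‖((Real.exp (-ρ x) : ℝ) : ℂ)‖ ≤ Real.exp (κ * R) := fun x => by
    rw [Complex.norm_real, Real.norm_of_nonneg (Real.exp_pos _).le]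
    exact Real.exp_le_exp.2 ((neg_le_abs _).trans (hρb x))
  -- bound for the propagator
  have hterm : ∀ t : ℝ, ‖(NormedSpace.exp ((I * t : ℂ) • H) (sg y v)) x‖ ≤
      min 1 (Real.exp (A * |t| - κ * R)) * ‖v‖ := by
    intro t
    rw [min_mul_of_nonneg _ _ (norm_nonneg _)]
    refine le_min ?_ ?_
    · rw [one_mul]
      refine (norm_app_le _ x).trans ?_
      rw [norm_exp_app hH, norm_sg]
    · have k1 := hU ρ (κ * R) hρb hρl t
      have k2 : ((M (fun x => ((Real.exp (ρ x) : ℝ) : ℂ)) * NormedSpace.exp ((I * t : ℂ) • H) *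
          M (fun x => ((Real.exp (-ρ x) : ℝ) : ℂ)) : Op m) (sg y v)) x =
          ((Real.exp (κ * R) : ℝ) : ℂ) • (NormedSpace.exp ((I * t : ℂ) • H) (sg y v)) x := by
        change (M (fun x => ((Real.exp (ρ x) : ℝ) : ℂ)) (NormedSpace.exp ((I * t : ℂ) • H)
          (M (fun x => ((Real.exp (-ρ x) : ℝ) : ℂ)) (sg y v)))) x = _
        rw [M_sg hb2, map_smul, M_app hb1, hρx, hρy]
        simp
      have k3 : ‖((Real.exp (κ * R) : ℝ) : ℂ) • (NormedSpace.exp ((I * t : ℂ) • H) (sg y v)) x‖ ≤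
          Real.exp (A * |t|) * ‖v‖ := by
        rw [← k2]
        refine (norm_app_le _ x).trans ((ContinuousLinearMap.le_opNorm _ _).trans ?_)
        rw [norm_sg]
        exact mul_le_mul_of_nonneg_right k1 (norm_nonneg _)
      rw [norm_smul, Complex.norm_real, Real.norm_of_nonneg (Real.exp_pos _).le] at k3
      have k4 : Real.exp (A * |t| - κ * R) = Real.exp (A * |t|) / Real.exp (κ * R) := Real.exp_sub _ _
      rw [k4, div_mul_eq_mul_div, le_div_iff₀ (Real.exp_pos _), mul_comm]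
      exact k3
  -- the series
  have hs1 : HasSum (fun n : ℤ => (c n • NormedSpace.exp ((I * (n * (Real.pi / (2 * r)) : ℂ)) • H)
      (sg y v)) x) ((cfc g H (sg y v)) x) := by
    have := hsg.mapL (ContinuousLinearMap.apply ℂ (HS m) (sg y v))
    exact hasSum_app this x
  have hbd : ∀ n : ℤ, ‖(c n • NormedSpace.exp ((I * (n * (Real.pi / (2 * r)) : ℂ)) • H)
      (sg y v)) x‖ ≤ ‖c n‖ * min 1 (Real.exp (A * ω * |(n : ℝ)| - κ * R)) * ‖v‖ := by
    intro n
    rw [smul_app, norm_smul]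
    have k1 := hterm (n * ω)
    have k2 : (I * (n * (Real.pi / (2 * r)) : ℂ)) = I * ((n * ω : ℝ) : ℂ) := by
      rw [hω]; push_cast; ring
    rw [k2, mul_assoc]
    refine mul_le_mul_of_nonneg_left ?_ (norm_nonneg _)
    rw [abs_mul, abs_of_pos hω0] at k1
    have k3 : A * ω * |(n : ℝ)| = A * (|(n : ℝ)| * ω) := by ring
    rw [k3]
    exact k1
  have hs2 : Summable (fun n : ℤ => ‖c n‖ * min 1 (Real.exp (A * ω * |(n : ℝ)| - κ * R))) := by
    refine Summable.of_nonneg_of_le (fun n => ?_) (fun n => ?_) hsum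
    · exact mul_nonneg (norm_nonneg _) (le_min zero_le_one (Real.exp_pos _).le)
    · calc ‖c n‖ * min 1 (Real.exp (A * ω * |(n : ℝ)| - κ * R)) ≤ ‖c n‖ * 1 :=
            mul_le_mul_of_nonneg_left (min_le_left _ _) (norm_nonneg _)
        _ = ‖c n‖ := mul_one _
  have hs3 := hs2.hasSum.mul_right ‖v‖
  have hs4 := hs1.norm_le_of_bounded hs3 hbd
  exact hs4.trans (mul_le_mul_of_nonneg_right (hC R hR0) (norm_nonneg _))

end Pool.Agent.W261.FKM
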