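import Pool.Agent.W809.FKM.Stms

/-!
# FK-SCHUR: Schur test for convolution bounds
-/

set_option autoImplicit false

namespace Pool.Agent.W261.FKM

open Pool.Agent.W809.FKM

/-- the reindexing `(x, y) ↦ (x - y, y)` -/
def shear : (ℤ × ℤ) × (ℤ × ℤ) ≃ (ℤ × ℤ) × (ℤ × ℤ) where
  toFun p := (p.1 - p.2, p.2)
  invFun p := (p.1 + p.2, p.2)
  left_inv p := by simp
  right_inv p := by simp

theorem schur : S_SCHUR := by
  intro m B b hb hs hK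
  set S : ℝ := ∑' z, b z with hS
  have hS0 : 0 ≤ S := tsum_nonneg hb
  refine ContinuousLinearMap.opNorm_le_bound _ hS0 fun ψ => ?_
  -- the double family
  have hψ := hasSum_normSq ψ
  have hprod : HasSum (fun p : (ℤ × ℤ) × (ℤ × ℤ) => b p.1 * ‖ψ p.2‖ ^ 2) (S * ‖ψ‖ ^ 2) :=
    hs.hasSum.mul hψ (hs.mul_of_nonneg hψ.summable hb (fun _ => by positivity))
  have hprod2 : HasSum (fun p : (ℤ × ℤ) × (ℤ × ℤ) => b (p.1 - p.2) * ‖ψ p.2‖ ^ 2) (S * ‖ψ‖ ^ 2) := by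
    have := (Equiv.hasSum_iff shear).2 hprod
    exact this
  have hfib : ∀ x : (ℤ × ℤ), Summable (fun y => b (x - y) * ‖ψ y‖ ^ 2) := fun x =>
    hprod2.summable.prod_factor x
  have hh : HasSum (fun x => ∑' y, b (x - y) * ‖ψ y‖ ^ 2) (S * ‖ψ‖ ^ 2) :=
    hprod2.prod_fiberwise fun x => (hfib x).hasSum
  -- pointwise bound
  have hpt : ∀ x, ‖(B ψ) x‖ ^ 2 ≤ S * ∑' y, b (x - y) * ‖ψ y‖ ^ 2 := by
    intro x
    have h1 := hasSum_app (hasSum_op B ψ) x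
    have h2 : Filter.Tendsto (fun s : Finset (ℤ × ℤ) => ‖∑ y ∈ s, (B (sg y (ψ y))) x‖ ^ 2) Filter.atTop
        (nhds (‖(B ψ) x‖ ^ 2)) := (h1.norm).pow 2
    refine le_of_tendsto h2 (Filter.Eventually.of_forall fun s => ?_)
    have h3 : ‖∑ y ∈ s, (B (sg y (ψ y))) x‖ ≤ ∑ y ∈ s, b (x - y) * ‖ψ y‖ :=
      (norm_sum_le _ _).trans (Finset.sum_le_sum fun y _ => hK x y (ψ y))
    have h4 : (∑ y ∈ s, b (x - y) * ‖ψ y‖) ^ 2 ≤
        (∑ y ∈ s, b (x - y)) * ∑ y ∈ s, b (x - y) * ‖ψ y‖ ^ 2 := by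
      refine Finset.sum_sq_le_sum_mul_sum_of_sq_eq_mul s (fun y _ => hb _)
        (fun y _ => mul_nonneg (hb _) (by positivity)) (fun y _ => ?_)
      ring
    have h5 : ∑ y ∈ s, b (x - y) ≤ S := by
      have e1 : Summable (fun y => b (x - y)) := (Equiv.subLeft x).summable_iff.2 hs
      have e2 : ∑' y, b (x - y) = S := (Equiv.subLeft x).tsum_eq b
      rw [← e2]
      exact e1.sum_le_tsum s (fun y _ => hb _)
    have h6 : ∑ y ∈ s, b (x - y) * ‖ψ y‖ ^ 2 ≤ ∑' y, b (x - y) * ‖ψ y‖ ^ 2 :=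
      (hfib x).sum_le_tsum s (fun y _ => mul_nonneg (hb _) (by positivity))
    calc ‖∑ y ∈ s, (B (sg y (ψ y))) x‖ ^ 2 ≤ (∑ y ∈ s, b (x - y) * ‖ψ y‖) ^ 2 :=
          pow_le_pow_left₀ (norm_nonneg _) h3 2
      _ ≤ _ := h4
      _ ≤ S * ∑' y, b (x - y) * ‖ψ y‖ ^ 2 :=
          mul_le_mul h5 h6 (Finset.sum_nonneg fun y _ => mul_nonneg (hb _) (by positivity)) hS0
  have hle := hasSum_le hpt (hasSum_normSq (B ψ)) (hh.mul_left S)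
  have h7 : ‖B ψ‖ ^ 2 ≤ (S * ‖ψ‖) ^ 2 := by
    calc ‖B ψ‖ ^ 2 ≤ S * (S * ‖ψ‖ ^ 2) := hle
      _ = (S * ‖ψ‖) ^ 2 := by ring
  exact le_of_sq_le_sq h7 (mul_nonneg hS0 (norm_nonneg _))

end Pool.Agent.W261.FKM
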