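import Pool.Agent.W809.FKM.Stms
import Pool.Agent.W809.FKM.Basic2

/-!
# FK-ULOC: weighted propagation bound
-/

set_option autoImplicit false

namespace Pool.Agent.W261.FKM

open Complex
open Pool.Agent.W809.FKM

theorem summable_exp_int (a : ℝ) (ha : 0 < a) : Summable (fun n : ℤ => Real.exp (-(a * |(n : ℝ)|))) := by
  have h : Summable (fun n : ℕ => Real.exp (-(a * (n : ℝ)))) := by
    have h1 : Summable (fun n : ℕ => Real.exp (-a) ^ n) :=
      summable_geometric_of_lt_one (Real.exp_pos _).le (by rw [Real.exp_lt_one_iff]; linarith)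
    refine h1.congr fun n => ?_
    rw [← Real.exp_nat_mul]
    congr 1
    ring
  refine Summable.of_nat_of_neg ?_ ?_
  · refine h.congr fun n => ?_
    simp
  · refine h.congr fun n => ?_
    simp

theorem summable_exp_pt (κ : ℝ) (hκ : 0 < κ) : Summable (fun z : ℤ × ℤ => Real.exp (-(κ * ‖pt z‖))) := by
  have h1 := summable_exp_int (κ / 2) (by positivity)
  have h2 : Summable (fun z : ℤ × ℤ => Real.exp (-(κ / 2 * |(z.1 : ℝ)|)) * Real.exp (-(κ / 2 * |(z.2 : ℝ)|))) :=
    h1.mul_of_nonneg h1 (fun _ => (Real.exp_pos _).le) (fun _ => (Real.exp_pos _).le)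
  refine Summable.of_nonneg_of_le (fun z => (Real.exp_pos _).le) (fun z => ?_) h2
  rw [← Real.exp_add]
  apply Real.exp_le_exp.2
  have a1 := abs_fst_le z
  have a2 := abs_snd_le z
  nlinarith

theorem norm_one_le (m : ℕ) : ‖(1 : Op m)‖ ≤ 1 := ContinuousLinearMap.norm_id_le

theorem norm_exp_le {m : ℕ} (Y : Op m) : ‖NormedSpace.exp Y‖ ≤ Real.exp ‖Y‖ := by
  have h1 := NormedSpace.exp_series_hasSum_exp' (𝕂 := ℂ) Y
  have h2 : HasSum (fun n : ℕ => ((n.factorial : ℝ))⁻¹ • ‖Y‖ ^ n) (Real.exp ‖Y‖) := by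
    rw [Real.exp_eq_exp_ℝ]
    exact NormedSpace.exp_series_hasSum_exp' (𝕂 := ℝ) ‖Y‖
  refine h1.norm_le_of_bounded h2 fun n => ?_
  rw [norm_smul, norm_inv, smul_eq_mul]
  have e1 : ‖((n.factorial : ℕ) : ℂ)‖ = n.factorial := by
    rw [Complex.norm_natCast]
  rw [e1]
  refine mul_le_mul_of_nonneg_left ?_ (by positivity)
  rcases Nat.eq_zero_or_pos n with h0 | h0
  · subst h0
    rw [pow_zero, pow_zero]
    exact norm_one_le m
  · exact norm_pow_le' Y h0

theorem uloc (hS : S_SCHUR) : S_ULOC := by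
  intro m H hH
  obtain ⟨ν, hν, hK⟩ := hH
  set b : ℤ × ℤ → ℝ := fun z => ν⁻¹ * Real.exp (-(ν / 2 * ‖pt z‖)) with hb
  have hb0 : ∀ z, 0 ≤ b z := fun z => by simp only [hb]; positivity
  have hbs : Summable b := (summable_exp_pt (ν / 2) (by positivity)).mul_left _
  refine ⟨ν / 2, ∑' z, b z, by positivity, tsum_nonneg hb0, ?_⟩
  intro ρ C hC hρ t
  have hb1 : ∀ x, ‖((Real.exp (ρ x) : ℝ) : ℂ)‖ ≤ Real.exp C := fun x => by
    rw [Complex.norm_real, Real.norm_of_nonneg (Real.exp_pos _).le]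
    exact Real.exp_le_exp.2 ((le_abs_self _).trans (hC x))
  have hb2 : ∀ x, ‖((Real.exp (-ρ x) : ℝ) : ℂ)‖ ≤ Real.exp C := fun x => by
    rw [Complex.norm_real, Real.norm_of_nonneg (Real.exp_pos _).le]
    exact Real.exp_le_exp.2 ((neg_le_abs _).trans (hC x))
  set Ep : Op m := M (fun x => ((Real.exp (ρ x) : ℝ) : ℂ)) with hEp
  set Em : Op m := M (fun x => ((Real.exp (-ρ x) : ℝ) : ℂ)) with hEm
  have e1 : Ep * Em = 1 := by
    rw [hEp, hEm, M_mul hb1 hb2, ← M_one]
    congr 1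
    funext x
    rw [← Complex.ofReal_mul, ← Real.exp_add, add_neg_cancel, Real.exp_zero, Complex.ofReal_one]
  have e2 : Em * Ep = 1 := by
    rw [hEp, hEm, M_mul hb2 hb1, ← M_one]
    congr 1
    funext x
    rw [← Complex.ofReal_mul, ← Real.exp_add, neg_add_cancel, Real.exp_zero, Complex.ofReal_one]
  set X : Op m := Ep * H * Em with hX
  have hXK : KB X (fun x y => b (x - y)) := by
    intro x y v
    have e3 : (X (sg y v)) x = ((Real.exp (ρ x) : ℝ) : ℂ) • (((Real.exp (-ρ y) : ℝ) : ℂ) • (H (sg y v)) x) := by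
      change (Ep (H (Em (sg y v)))) x = _
      rw [hEm, M_sg hb2, map_smul, hEp, M_app hb1, smul_app]
    rw [e3, norm_smul, norm_smul, Complex.norm_real, Complex.norm_real,
      Real.norm_of_nonneg (Real.exp_pos _).le, Real.norm_of_nonneg (Real.exp_pos _).le]
    have h1 := hK x y v
    have h2 := hρ x y
    have h3 := dst_eq x y
    calc Real.exp (ρ x) * (Real.exp (-ρ y) * ‖(H (sg y v)) x‖)
        ≤ Real.exp (ρ x) * (Real.exp (-ρ y) * (ν⁻¹ * Real.exp (-(ν * dst x y)) * ‖v‖)) := by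
          gcongr
      _ = ν⁻¹ * Real.exp (ρ x - ρ y - ν * dst x y) * ‖v‖ := by
          rw [show ρ x - ρ y - ν * dst x y = ρ x + (-ρ y + -(ν * dst x y)) by ring, Real.exp_add,
            Real.exp_add]
          ring
      _ ≤ ν⁻¹ * Real.exp (-(ν / 2 * ‖pt (x - y)‖)) * ‖v‖ := by
          refine mul_le_mul_of_nonneg_right (mul_le_mul_of_nonneg_left ?_ (by positivity))
            (norm_nonneg _)
          apply Real.exp_le_exp.2
          rw [← h3]
          have := le_abs_self (ρ x - ρ y)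
          linarith
  have hXn := hS m X b hb0 hbs hXK
  let +nondep : NormedAlgebra ℚ (Op m) := .restrictScalars ℚ ℂ (Op m)
  have key : Ep * NormedSpace.exp ((I * t) • H) * Em = NormedSpace.exp ((I * t : ℂ) • X) := by
    let y : (Op m)ˣ := ⟨Ep, Em, e1, e2⟩
    have h := NormedSpace.exp_units_conj y ((I * t : ℂ) • H)
    have h' : (y : Op m) * ((I * t : ℂ) • H) * ((y⁻¹ : (Op m)ˣ) : Op m) = (I * t : ℂ) • X := by
      change Ep * ((I * t : ℂ) • H) * Em = _
      rw [mul_smul_comm, smul_mul_assoc]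
    rw [h'] at h
    exact h.symm
  rw [key]
  refine (norm_exp_le _).trans (Real.exp_le_exp.2 ?_)
  rw [norm_smul, norm_mul, Complex.norm_I, one_mul, Complex.norm_real, Real.norm_eq_abs, mul_comm]
  exact mul_le_mul_of_nonneg_right hXn (abs_nonneg _)

end Pool.Agent.W261.FKM
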